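import Pool.Agent.V7H57.TT.Facing

/-!
# Square complexes: far facing triples of hyperplanes whose common stabiliser is not cyclic

Let `X` be a CAT(0) cube complex of dimension at most two, given by its 1-skeleton: a median graph
without 3-cubes, and let `G` act geometrically on `X`.  A facing triple consists of three disjoint
half-spaces (no one of the three hyperplanes separates the other two).  Sageev and Wise proved that
`G` is hyperbolic or contains `ℤ²` if the common stabiliser of every facing triple is
(virtually) cyclic.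

Theorem: if `X` contains a flat plane and `G` has no subgroup `ℤ²` then for every `R` there are three
half-spaces of `X`, at distances larger than `2 R` from each other, whose common stabiliser is not
virtually cyclic.  The first two are separated by a band of width `2 R` of a limit flat of a given
flat plane.

So in dimension two it is enough to look at far facing triples: if for some `R` the common
stabilisers of the facing triples of hyperplanes with distances at least `R` are virtually
cyclic then `G` is hyperbolic or contains `ℤ²`.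

Idea of the proof.  There is a product of two infinite tripods in `X` (`TwoTripodsH57`).  The three
half-spaces are those behind the edges number `R` of the three legs of the second tripod; they do
not depend on the point of the first tripod.  By the pigeonhole principle there is for each leg `a` of
the first tripod an element `g a` which maps a point of this leg, times the tripod with legs of
length `R + 1`, to such a set at a point farther out on this leg.  It stabilises the three
half-spaces, and it maps a half-space `U a` which contains the end of the leg `a` properly into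
itself.  If the common stabiliser were virtually cyclic then two of the three elements `g a` would
have a common positive power, but no element contracts the disjoint half-spaces `U a` and `U a'`.
-/

set_option autoImplicit false

namespace Pool.Agent.Results.MP_140312_al.FarFacingTriplesH57

open Function

/-- Median graphs: connected graphs in which any three vertices `a`, `b`, `c` have exactly one median
`m`, a vertex which is on geodesics between any two of them.  These are exactly the 1-skeletons of
the CAT(0) cube complexes. -/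
def IsMedian {V : Type*} (Γ : SimpleGraph V) : Prop :=
  Γ.Connected ∧ ∀ a b c : V, ∃! m : V,
    Γ.dist a m + Γ.dist m b = Γ.dist a b ∧ Γ.dist b m + Γ.dist m c = Γ.dist b c ∧
      Γ.dist a m + Γ.dist m c = Γ.dist a c

/-- The graph contains no 3-cube: for the 1-skeleton of a CAT(0) cube complex this means that the
dimension of the complex is at most two. -/
def NoThreeCube {V : Type*} (Γ : SimpleGraph V) : Prop :=
  ¬ ∃ c : (Fin 3 → Bool) → V, Injective c ∧ ∀ s i, Γ.Adj (c s) (c (update s i (!s i)))

/-- Flat planes: isometric embeddings of the grid `ℤ × ℤ` in the graph. -/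
def IsFlat {V : Type*} (Γ : SimpleGraph V) (f : ℤ × ℤ → V) : Prop :=
  ∀ z w : ℤ × ℤ, (Γ.dist (f z) (f w) : ℤ) = |z.1 - w.1| + |z.2 - w.2|

/-- The limit flats of `f`: the maps which agree on every finite square of the grid with one of the
planes `z ↦ g • f (z + b)`, where `g` is in `G` and `b` is in `ℤ × ℤ`. -/
def LimitFlats (G : Type*) {V : Type*} [Group G] [MulAction G V] (f : ℤ × ℤ → V) :
    Set (ℤ × ℤ → V) :=
  {h | ∀ R : ℕ, ∃ (g : G) (b : ℤ × ℤ), ∀ z : ℤ × ℤ, |z.1| ≤ R → |z.2| ≤ R → h z = g • f (z + b)}

/-- Half-spaces of the median graph: the sets of the vertices which are closer to `q` than to `p`,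
where `p` and `q` are adjacent.  They correspond to the half-spaces bounded by the hyperplanes of the
cube complex. -/
def IsHalfSpace {V : Type*} (Γ : SimpleGraph V) (W : Set V) : Prop :=
  ∃ p q : V, Γ.Adj p q ∧ W = {v | Γ.dist v q < Γ.dist v p}

/-- The common stabiliser of three sets of vertices. -/
def commonStab (G : Type*) {V : Type*} [Group G] [MulAction G V] (W : Fin 3 → Set V) :
    Subgroup G where
  carrier := {g | ∀ (a : Fin 3) (v : V), g • v ∈ W a ↔ v ∈ W a}
  mul_mem' := fun {g h} hg hh a v => by rw [mul_smul, hg, hh]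
  one_mem' := fun a v => by rw [one_smul]
  inv_mem' := fun {g} hg a v => by rw [← hg a (g⁻¹ • v), smul_inv_smul]

/-- Let `Γ` be a locally finite median graph without 3-cubes, i.e. the 1-skeleton of a locally finite
CAT(0) cube complex of dimension at most two.  Let `G` act on `Γ` by automorphisms with finite
stabilisers and finitely many orbits of vertices, and suppose that `G` has no subgroup isomorphic to
`ℤ²`.  Then for every flat plane `f` and every `R` there are three half-spaces `W 0`, `W 1`, `W 2`, with
distances larger than `2 R` from each other, whose common stabiliser is not virtually cyclic: every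
cyclic subgroup has infinite index in it.  Moreover some limit flat `h` of `f` meets `W 0` in the
half-plane `y > R` and `W 1` in the half-plane `y < -R`, and does not meet `W 2`. -/
theorem result {V : Type*} {Γ : SimpleGraph V} (hΓ : IsMedian Γ) (h3 : NoThreeCube Γ)
    (hfin : ∀ v, (Γ.neighborSet v).Finite)
    {G : Type*} [Group G] [MulAction G V] (haut : ∀ (g : G) (a b : V), Γ.Adj a b → Γ.Adj (g • a) (g • b))
    (hstab : ∀ v : V, {g : G | g • v = v}.Finite)
    (horb : ∃ K : Set V, K.Finite ∧ ∀ v : V, ∃ g : G, g • v ∈ K)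
    (hZ : ¬ ∃ φ : Multiplicative (ℤ × ℤ) →* G, Injective φ)
    (f : ℤ × ℤ → V) (hf : IsFlat Γ f) (R : ℕ) :
    ∃ W : Fin 3 → Set V, (∀ a, IsHalfSpace Γ (W a)) ∧
      (∀ a b, a ≠ b → ∀ v ∈ W a, ∀ w ∈ W b, 2 * R < Γ.dist v w) ∧
      (∀ z ∈ commonStab G W, (Subgroup.zpowers z).relIndex (commonStab G W) = 0) ∧
      ∃ h ∈ LimitFlats G f, ∀ x y : ℤ,
        (h (x, y) ∈ W 0 ↔ R < y) ∧ (h (x, y) ∈ W 1 ↔ y < -R) ∧ h (x, y) ∉ W 2 := by
  have hA : Pool.Agent.N47.SQ.Act G Γ := ⟨hΓ, h3, hfin, haut, hstab, horb⟩
  obtain ⟨F, hF, h, hh, hi⟩ := Pool.Agent.V7H57.TT.tp_inf hA (Pool.Agent.N47.SQ.Orb.sys hA hf)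
    ⟨f, Pool.Agent.N47.SQ.Orb.self f⟩ hZ
  have hYY : Pool.Agent.V7H57.TT.IsYY Γ F := fun a b a' b' m n m' n' =>
    hF (m + n + m' + n') a b a' b' m n m' n' (by omega) (by omega) (by omega) (by omega)
  have hdist : ∀ (a b : Fin 3) (m n k : ℕ), (Γ.dist (F a m b n) (F 0 0 b k) : ℤ) =
      m + |(n : ℤ) - k| := by
    intro a b m n k
    rw [hYY, Pool.Agent.V7H57.TT.yd_comm, Nat.cast_zero, Pool.Agent.V7H57.TT.yd_zero,
      Pool.Agent.V7H57.TT.yd_same]
  have hdist' : ∀ (a b b' : Fin 3) (m n k : ℕ), b ≠ b' →
      (Γ.dist (F a m b n) (F 0 0 b' k) : ℤ) = m + (n + k) := by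
    intro a b b' m n k hb
    rw [hYY, Pool.Agent.V7H57.TT.yd_comm, Nat.cast_zero, Pool.Agent.V7H57.TT.yd_zero,
      Pool.Agent.V7H57.TT.yd_ne hb]
  refine ⟨fun b => Pool.Agent.V7H57.TT.hs Γ (F 0 0 b R) (F 0 0 b (R + 1)), fun b => ?_, ?_, ?_,
    h, fun S => ?_, ?_⟩
  · refine ⟨F 0 0 b R, F 0 0 b (R + 1), ?_, rfl⟩
    rw [← SimpleGraph.dist_eq_one_iff_adj]
    have := hdist 0 b 0 R (R + 1)
    push_cast at this
    rw [show (R : ℤ) - (R + 1) = -1 by ring, abs_neg, abs_one] at this
    omega
  · intro a b hab v hv w hw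
    have := hYY.far hΓ h3 hab R hv hw
    omega
  · exact Pool.Agent.V7H57.TT.facing hA hYY R _ fun g hg => hg
  · obtain ⟨g, b, hg⟩ := hh S
    refine ⟨g, b, fun z h1 h2 => hg z ?_ ?_⟩
    · rw [Int.abs_eq_natAbs] at h1; omega
    · rw [Int.abs_eq_natAbs] at h2; omega
  · -- the position of `h`
    have key : ∀ (a : Fin 3) (m n : ℕ),
        (F a m 0 n ∈ Pool.Agent.V7H57.TT.hs Γ (F 0 0 0 R) (F 0 0 0 (R + 1)) ↔ R < n) ∧
        (F a m 0 n ∉ Pool.Agent.V7H57.TT.hs Γ (F 0 0 1 R) (F 0 0 1 (R + 1))) ∧
        (F a m 0 n ∉ Pool.Agent.V7H57.TT.hs Γ (F 0 0 2 R) (F 0 0 2 (R + 1))) ∧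
        (F a m 1 n ∈ Pool.Agent.V7H57.TT.hs Γ (F 0 0 1 R) (F 0 0 1 (R + 1)) ↔ R < n) ∧
        (F a m 1 n ∉ Pool.Agent.V7H57.TT.hs Γ (F 0 0 0 R) (F 0 0 0 (R + 1))) ∧
        (F a m 1 n ∉ Pool.Agent.V7H57.TT.hs Γ (F 0 0 2 R) (F 0 0 2 (R + 1))) := by
      intro a m n
      have d1 := hdist a 0 m n R
      have d2 := hdist a 0 m n (R + 1)
      have d3 := hdist a 1 m n R
      have d4 := hdist a 1 m n (R + 1)
      have d5 := hdist' a 0 1 m n R (by decide)
      have d6 := hdist' a 0 1 m n (R + 1) (by decide)
      have d7 := hdist' a 0 2 m n R (by decide)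
      have d8 := hdist' a 0 2 m n (R + 1) (by decide)
      have d9 := hdist' a 1 0 m n R (by decide)
      have d10 := hdist' a 1 0 m n (R + 1) (by decide)
      have d11 := hdist' a 1 2 m n R (by decide)
      have d12 := hdist' a 1 2 m n (R + 1) (by decide)
      simp only [Pool.Agent.V7H57.TT.hs, Set.mem_ofPred_eq]
      push_cast at d2 d4 d6 d8 d10 d12
      rcases Nat.lt_or_ge R n with hn | hn
      · rw [abs_of_nonneg (by omega)] at d1 d2 d3 d4
        omega
      · rw [abs_of_nonpos (by omega)] at d1 d2 d3 d4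
        omega
    have zero : ∀ (a : Fin 3) (m : ℕ), F a m 0 0 = F a m 1 0 := by
      intro a m
      exact hYY.swap.cen hΓ 0 1 a m
    intro x y
    obtain ⟨m, hm⟩ : ∃ m : ℕ, x = m ∨ x = -m := ⟨x.natAbs, by omega⟩
    obtain ⟨n, hn⟩ : ∃ n : ℕ, y = n ∨ y = -n := ⟨y.natAbs, by omega⟩
    obtain ⟨i1, i2, i3, i4⟩ := hi (m + n) m n (by omega) (by omega)
    obtain ⟨a, ha1, ha2⟩ : ∃ a : Fin 3, h (x, n) = F a m 0 n ∧ h (x, -n) = F a m 1 n := by
      rcases hm with rfl | rfl
      · exact ⟨0, i1, i3⟩
      · exact ⟨1, i2, i4⟩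
    obtain ⟨k1, k2, k3, k4, k5, k6⟩ := key a m n
    rcases hn with rfl | rfl
    · rw [ha1]
      refine ⟨by rw [k1]; omega, ?_, k3⟩
      exact ⟨fun h => absurd h k2, fun h => by omega⟩
    · rw [ha2]
      refine ⟨?_, by rw [k4]; omega, k6⟩
      exact ⟨fun h => absurd h k5, fun h => by omega⟩

end Pool.Agent.Results.MP_140312_al.FarFacingTriplesH57
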