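import Pool.Agent.V7H57.WL.Fin

/-!
# Flats and `ℤ²` for CAT(0) groups with walls whose far pairs have virtually abelian stabilisers

Let `G` act geometrically on a proper CAT(0) space `X` and let `V` be a `G`-set with a system of
walls of finite dimension: a `G`-invariant set `W` of subsets of `V` (half-spaces), closed under
complements, such that any two points of `V` are separated by finitely many walls, and at most `d`
half-spaces are pairwise transverse.  For instance `V` is the set of the vertices of a CAT(0) cube
complex of dimension `d` on which `G` acts, not necessarily properly or cocompactly, or `V = G` with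
a family of half-spaces of codimension one subgroups.  Suppose that the stabilisers of the
half-spaces are convex cocompact in `X`, and that for some `m` the common stabilisers of two
half-spaces `Z 0 ⊋ Z 1 ⊋ ... ⊋ Z m` which are `m` steps apart are virtually abelian.

Theorem: if `G` has no subgroup `ℤ²` then every flat of dimension `k ≥ 2` of `X` has a limit flat
which is bounded in the wall metric: it is in a bounded neighbourhood of the orbit points `g • o`
such that at most `N` walls separate `v0` and `g • v0`, for some `N`.

If the wall metric is proper on `G` (for every `N` there are only finitely many `g` such that at most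
`N` walls separate `v0` and `g • v0`), in particular if `G` acts geometrically on a finite dimensional
CAT(0) cube complex and `V`, `W` are its vertices and half-spaces, then this is not possible: then
`G` has a subgroup `ℤ²` or `X` contains no flat plane, and by the flat plane theorem `G` is
hyperbolic.

Idea of the proof.
* For a wall `A` let `B_A` be a closed convex set on which its stabiliser acts cocompactly, chosen
  equivariantly.  A flat `f` crosses the wall (in the sense of orbit points near `f`) only at points
  of the closed convex set `S_A = {z | d (f z, B_A) ≤ C}`.  If two points outside of `S_A` are on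
  different sides of `A` then by the theorem of Hahn and Banach `S_A` is in a slab between two
  parallel hyperplanes, all points on one side of the slab are on the same side of `A`, and `S_A`
  meets all lines which are orthogonal to the slab.
* If no wall separates `f` in this way then every wall which separates two points near `f` is near
  one of them.  There is a uniform bound for the number of the walls near a point, hence `f` is
  bounded in the wall metric.
* Otherwise, by compactness, there are separating walls near all points of `f`.  Walls whose slabs
  are not parallel are transverse, so the slabs have finitely many directions, and there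
  is a line in `f` which crosses all of them.  Let `A_0`, `A_1`, ... be walls with slabs at equidistant
  far points of the line.  For `s < t` the half-spaces `A_s` and `A_t` are transverse or nested with
  parallel slabs, `A_t ⊊ A_s`.  As there are at most `d` pairwise transverse half-spaces, every
  window of `d m + 1` indices contains a nested chain of length `m`, and by the pigeonhole principle
  (for the types of the chains and again for the antichains) there are two such chains with parallel
  slabs, the second behind the first, and `g` in `G` which maps the end points of the first to the end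
  points of the second.
* These four walls are near a common hyperplane of `f`, which is unbounded since `k ≥ 2`.  So their
  common stabiliser is infinite.  It contains an element `a` of infinite order, `a` and `g⁻¹ a g` are
  in the virtually abelian stabiliser of the first chain, and if there is no `ℤ²` then they have a
  common power.  The translation lengths show that `g²` commutes with a power of `a`; since `g` maps a
  half-space which is fixed by `a` properly into itself, these two elements generate `ℤ²`.
-/

set_option autoImplicit false

namespace Pool.Agent.Results.MP_140312_al.FarWallsH57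

open Set Metric Function
open scoped Pointwise

/-- The inequality of Bruhat and Tits: a complete metric space is CAT(0) if and only if any two
points `p`, `q` have a midpoint `m` such that
`d(x, m)² ≤ (d(x, p)² + d(x, q)²) / 2 - d(p, q)² / 4` for all `x`. -/
def BruhatTits (X : Type) [MetricSpace X] : Prop := ∀ p q : X, ∃ m : X, ∀ x : X,
  dist x m ^ 2 ≤ (dist x p ^ 2 + dist x q ^ 2) / 2 - dist p q ^ 2 / 4

/-- `B` is a nonempty closed convex subset of `X`, preserved by the subgroup `K`, which acts
cocompactly on `B`. -/
def ConvexCocompact {X : Type} [MetricSpace X] {G : Type} [Group G] [MulAction G X]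
    (K : Subgroup G) (B : Set X) : Prop :=
  B.Nonempty ∧ IsClosed B ∧
    (∀ p ∈ B, ∀ q ∈ B, ∀ m, dist p m + dist m q = dist p q → m ∈ B) ∧
    (∀ g ∈ K, ∀ x ∈ B, g • x ∈ B) ∧
    ∃ C : Set X, IsCompact C ∧ ∀ x ∈ B, ∃ g ∈ K, g • x ∈ C

/-- `A` has a finitely generated abelian subgroup of finite index. -/
def VirtuallyAbelian {G : Type} [Group G] (A : Subgroup G) : Prop :=
  ∃ A' : Subgroup G, A' ≤ A ∧ A'.relIndex A ≠ 0 ∧ A'.FG ∧ ∀ a ∈ A', ∀ b ∈ A', a * b = b * a

/-- The limit flats of `F`: the closure, for pointwise convergence, of the set of the flats
`z ↦ g • F (z + p)`, where `g` is in `G` and `p` is in `ℝ^k`. -/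
def LimitFlats (G : Type) [Group G] {X : Type} [MetricSpace X] [MulAction G X] {k : ℕ}
    (F : EuclideanSpace ℝ (Fin k) → X) : Set (EuclideanSpace ℝ (Fin k) → X) :=
  closure {f | ∃ (g : G) (p : EuclideanSpace ℝ (Fin k)), f = fun z => g • F (z + p)}

/-- Transverse half-spaces: all four quadrants are nonempty. -/
def Transverse {V : Type} (A B : Set V) : Prop :=
  (A ∩ B).Nonempty ∧ (A ∩ Bᶜ).Nonempty ∧ (Aᶜ ∩ B).Nonempty ∧ (Aᶜ ∩ Bᶜ).Nonempty

/-- The half-spaces of a `G`-invariant system of walls on the `G`-set `V`, of dimension at
most `d`. -/
structure IsWallSystem (G : Type) [Group G] {V : Type} [MulAction G V] (W : Set (Set V)) (d : ℕ) :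
    Prop where
  /-- The complement of a half-space is a half-space. -/
  compl : ∀ A ∈ W, Aᶜ ∈ W
  /-- The translates of half-spaces are half-spaces. -/
  smul : ∀ A ∈ W, ∀ g : G, g • A ∈ W
  /-- Two points are separated by finitely many walls. -/
  finite : ∀ u v : V, {A | A ∈ W ∧ u ∈ A ∧ v ∉ A}.Finite
  /-- At most `d` half-spaces are pairwise transverse. -/
  dim : ∀ S : Finset (Set V), (∀ A ∈ S, A ∈ W) → (∀ A ∈ S, ∀ B ∈ S, A ≠ B → Transverse A B) →
    S.card ≤ d

/-- The wall metric: the number of the half-spaces which contain `u` and do not contain `v`, i.e. the
number of the walls which separate `u` and `v`. -/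
noncomputable def wallDist {V : Type} (W : Set (Set V)) (u v : V) : ℕ :=
  {A | A ∈ W ∧ u ∈ A ∧ v ∉ A}.ncard

/-- Let `G` act geometrically (by isometries, properly discontinuously, cocompactly) on a proper
CAT(0) space `X`, let `W` be the half-spaces of a `G`-invariant system of walls of dimension at most `d`
on a `G`-set `V`, and suppose that for some `m`
* for all half-spaces `Z 0 ⊋ Z 1 ⊋ ... ⊋ Z m` the common stabiliser of `Z 0` and `Z m` is virtually
  abelian, and
* `m = 0`, or the stabilisers of the half-spaces are convex cocompact in `X`.
Let `F` be a flat of dimension `k ≥ 2` in `X`.  Then `G` has a subgroup isomorphic to `ℤ²`, or there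
are a limit flat `f` of `F` and a number `N` such that every point `f z` is at distance at most `N`
from an orbit point `g • o` such that at most `N` walls separate `v0` and `g • v0`; in this case there
are infinitely many `g` such that at most `N` walls separate `v0` and `g • v0`. -/
theorem result {X : Type} [MetricSpace X] [ProperSpace X] (hX : BruhatTits X)
    {G : Type} [Group G] [MulAction G X] [IsIsometricSMul G X] [ProperlyDiscontinuousSMul G X]
    (hcc : ∃ C : Set X, IsCompact C ∧ ∀ x : X, ∃ g : G, g • x ∈ C)
    {V : Type} [MulAction G V] {W : Set (Set V)} {d : ℕ} (hW : IsWallSystem G W d)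
    (m : ℕ) (hm : ∀ Z : ℕ → Set V, (∀ i ≤ m, Z i ∈ W) → (∀ i < m, Z (i + 1) ⊂ Z i) →
      VirtuallyAbelian (MulAction.stabilizer G (Z 0) ⊓ MulAction.stabilizer G (Z m)))
    (he : m = 0 ∨ ∀ A ∈ W, ∃ B : Set X, ConvexCocompact (MulAction.stabilizer G A) B)
    {k : ℕ} (hk : 2 ≤ k) (F : EuclideanSpace ℝ (Fin k) → X) (hF : Isometry F) (o : X) (v0 : V) :
    (∃ φ : Multiplicative (ℤ × ℤ) →* G, Injective φ) ∨
    ∃ f ∈ LimitFlats G F, ∃ N : ℕ, Isometry f ∧
      (∀ z, ∃ g : G, dist (f z) (g • o) ≤ N ∧ wallDist W v0 (g • v0) ≤ N) ∧
      {g : G | wallDist W v0 (g • v0) ≤ N}.Infinite := by
  have hG : Pool.Agent.Y34.HB.Geo X G := ⟨inferInstance, inferInstance, inferInstance, hcc, hX⟩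
  exact Pool.Agent.V7H57.WL.wall_flats hG hW.compl hW.smul hW.finite hW.dim m hm
    (he.imp_right fun h A hA => by
      obtain ⟨B, b1, b2, b3, b4, b5⟩ := h A hA
      exact ⟨B, b1, b2, b3, b4, b5⟩) o v0 hk hF

end Pool.Agent.Results.MP_140312_al.FarWallsH57
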