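import Pool.Agent.V7H57.TT.Main

/-!
# Square complexes: flats without `ℤ²` give products of two infinite tripods

Let `X` be a CAT(0) cube complex of dimension at most two, given by its 1-skeleton: a median graph
without 3-cubes.  The flat planes of `X` are the planes tiled by unit squares, i.e. the isometric
embeddings of the grid `ℤ × ℤ` in the median graph.  Let `G` act geometrically on `X`.

Theorem: if `G` has no subgroup `ℤ²` then every flat plane of `X` has a limit flat which is contained,
as a product of two lines, in an isometrically embedded product of two infinite tripods.

So if `X` contains a flat plane and no product of two infinite tripods (if the Tits boundary of `X`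
contains a circle and no join of two sets of three points) then `G` contains `ℤ²`.  Flat planes
which branch along parallel lines in one direction, even along all of them, are not excluded by this.

Idea of the proof.

* Two flats which separate exactly at a horizontal line give an embedding of `ℤ × Y`, where `Y` is
  the infinite tripod.  If two embeddings of `ℤ × Y` agree on a large square around the centre and
  differ at the next column then they diverge there and give a product of two tripods with long
  legs.  Otherwise the embeddings of `ℤ × Y` are determined by large squares, and by the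
  pigeonhole principle there is one `T` such that near the centre of every `ℤ × Y` an element of `G`
  acts as the horizontal translation by `T`.
* Take a flat `f` and the rows of `f` from which some other flat branches off upwards: near such a
  row an element `x` acts as the translation by `T`.  Rows which are not of this kind determine the
  next one: if `x` translates two rows then it translates the next one, as otherwise the union of
  the lower part of `f` and of the upper part of the translate of `f` is a flat which branches off.
  Different elements which translate the same line by `T` have a common power, with an exponent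
  which only depends on the orders of the stabilisers.  So one element acts as a translation on all
  rows above a row of the first kind.
* An element which acts as a horizontal translation on a half-plane commutes with an element
  which maps one row to a higher one (pigeonhole principle for its conjugates), and the two
  generate `ℤ²`.
* Compactness gives products of infinite tripods.
-/

set_option autoImplicit false

namespace Pool.Agent.Results.MP_140312_al.TwoTripodsH57

open Function

/-- Median graphs: connected graphs in which any three vertices `a`, `b`, `c` have exactly one median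
`m`, a vertex which is on geodesics between any two of them.  These are exactly the 1-skeletons of
the CAT(0) cube complexes. -/
def IsMedian {V : Type*} (Γ : SimpleGraph V) : Prop :=
  Γ.Connected ∧ ∀ a b c : V, ∃! m : V,
    Γ.dist a m + Γ.dist m b = Γ.dist a b ∧ Γ.dist b m + Γ.dist m c = Γ.dist b c ∧
      Γ.dist a m + Γ.dist m c = Γ.dist a c

/-- The graph contains no 3-cube: for the 1-skeleton of a CAT(0) cube complex this means that the
dimension of the complex is at most two. -/
def NoThreeCube {V : Type*} (Γ : SimpleGraph V) : Prop :=
  ¬ ∃ c : (Fin 3 → Bool) → V, Injective c ∧ ∀ s i, Γ.Adj (c s) (c (update s i (!s i)))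

/-- Flat planes: isometric embeddings of the grid `ℤ × ℤ` in the graph. -/
def IsFlat {V : Type*} (Γ : SimpleGraph V) (f : ℤ × ℤ → V) : Prop :=
  ∀ z w : ℤ × ℤ, (Γ.dist (f z) (f w) : ℤ) = |z.1 - w.1| + |z.2 - w.2|

/-- The limit flats of `f`: the maps which agree on every finite square of the grid with one of the
planes `z ↦ g • f (z + b)`, where `g` is in `G` and `b` is in `ℤ × ℤ`. -/
def LimitFlats (G : Type*) {V : Type*} [Group G] [MulAction G V] (f : ℤ × ℤ → V) :
    Set (ℤ × ℤ → V) :=
  {h | ∀ R : ℕ, ∃ (g : G) (b : ℤ × ℤ), ∀ z : ℤ × ℤ, |z.1| ≤ R → |z.2| ≤ R → h z = g • f (z + b)}

/-- The infinite tripod: three infinite rays with a common origin.  The point `(a, m)` is the point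
at distance `m` from the origin on the ray `a`, and `tripodDist a m b n` is the distance of the
points `(a, m)` and `(b, n)`. -/
def tripodDist (a : Fin 3) (m : ℕ) (b : Fin 3) (n : ℕ) : ℤ :=
  if a = b then |(m : ℤ) - n| else m + n

/-- Let `Γ` be a locally finite median graph without 3-cubes, i.e. the 1-skeleton of a locally finite
CAT(0) cube complex of dimension at most two.  Let `G` act on `Γ` by automorphisms with finite
stabilisers and finitely many orbits of vertices, and suppose that `G` has no subgroup isomorphic to
`ℤ²`.  Then for every flat plane `f` there are an isometric embedding `F` of the product of two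
infinite tripods (with the sum of the distances) and a limit flat `h` of `f` which is the product of
the line formed by the legs `0` and `1` of the first tripod and the line formed by the legs `0`
and `1` of the second tripod. -/
theorem result {V : Type*} {Γ : SimpleGraph V} (hΓ : IsMedian Γ) (h3 : NoThreeCube Γ)
    (hfin : ∀ v, (Γ.neighborSet v).Finite)
    {G : Type*} [Group G] [MulAction G V] (haut : ∀ (g : G) (a b : V), Γ.Adj a b → Γ.Adj (g • a) (g • b))
    (hstab : ∀ v : V, {g : G | g • v = v}.Finite)
    (horb : ∃ K : Set V, K.Finite ∧ ∀ v : V, ∃ g : G, g • v ∈ K)
    (hZ : ¬ ∃ φ : Multiplicative (ℤ × ℤ) →* G, Injective φ)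
    (f : ℤ × ℤ → V) (hf : IsFlat Γ f) :
    ∃ F : Fin 3 → ℕ → Fin 3 → ℕ → V,
      (∀ (a b a' b' : Fin 3) (m n m' n' : ℕ),
        (Γ.dist (F a m b n) (F a' m' b' n') : ℤ) = tripodDist a m a' m' + tripodDist b n b' n') ∧
      ∃ h ∈ LimitFlats G f, ∀ m n : ℕ, h (m, n) = F 0 m 0 n ∧ h (-m, n) = F 1 m 0 n ∧
        h (m, -n) = F 0 m 1 n ∧ h (-m, -n) = F 1 m 1 n := by
  have hA : Pool.Agent.N47.SQ.Act G Γ := ⟨hΓ, h3, hfin, haut, hstab, horb⟩
  obtain ⟨F, hF, h, hh, hi⟩ := Pool.Agent.V7H57.TT.tp_inf hA (Pool.Agent.N47.SQ.Orb.sys hA hf)
    ⟨f, Pool.Agent.N47.SQ.Orb.self f⟩ hZ
  refine ⟨F, fun a b a' b' m n m' n' => ?_, h, fun R => ?_, fun m n => ?_⟩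
  · exact hF (m + n + m' + n') a b a' b' m n m' n' (by omega) (by omega) (by omega) (by omega)
  · obtain ⟨g, b, hg⟩ := hh R
    refine ⟨g, b, fun z h1 h2 => hg z ?_ ?_⟩
    · rw [Int.abs_eq_natAbs] at h1; omega
    · rw [Int.abs_eq_natAbs] at h2; omega
  · exact hi (m + n) m n (by omega) (by omega)

end Pool.Agent.Results.MP_140312_al.TwoTripodsH57
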