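import Pool.Agent.V7H57.FL.Fin

/-!
# Flats and `ℤ²` for CAT(0) groups acting on trees

Let `G` act geometrically on a proper CAT(0) space `X` and by automorphisms on a tree `T` (for
instance the Bass-Serre tree of a splitting of `G`).  Suppose that the stabilisers of the long
segments of `T` are virtually abelian and that the stabilisers of the edges are convex cocompact
in `X`; the second condition is automatic if already the stabilisers of the edges are virtually
abelian.

Theorem: if `G` has no subgroup `ℤ²` then every flat of dimension `k ≥ 2` of `X` has a limit flat
which is contained in a bounded neighbourhood of an orbit of a vertex stabiliser `G_v`.  If `G_v` is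
convex cocompact, acting on the closed convex set `B`, then `B` contains a flat parallel to it.

So a flat plane of `X` gives `ℤ²` in `G`, or it comes from a vertex group: in the question whether CAT(0)
groups without `ℤ²` are hyperbolic the group `G` can be replaced by its vertex groups, whenever
`G` is an amalgam or an HNN extension over a virtually cyclic subgroup, or over a convex cocompact
subgroup for which the stabilisers of long segments of the Bass-Serre tree are virtually abelian.

Idea of the proof.
* For an edge `e` of `T` let `B_e` be a closed convex set on which its stabiliser acts cocompactly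
  (flat torus theorem, if the stabiliser is virtually abelian), chosen equivariantly.  A flat `f`
  crosses `e` (in the sense of orbit points near `f`) only at points of the closed convex set
  `S_e = {z | d (f z, B_e) ≤ C}`.  If two points outside of `S_e` are on different sides of `e` then, by
  the theorem of Hahn and Banach, `S_e` is in a slab between two parallel hyperplanes, all points on
  one side of the slab are on the same side of `e`, and `S_e` meets all lines which are orthogonal to
  the slab.
* If there is no such edge for `f` then the sides of the edges which contain the points outside of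
  `S_e` determine a vertex `v` of `T` (not an end, because only finitely many of the sets `S_e`
  contain the point `0`), and `f` is near the orbit of the stabiliser of `v`.  Here one needs that
  `S_e` does not contain large balls; otherwise there is a limit flat near the orbit of the
  stabiliser of `e`.
* Otherwise, by compactness, there are separating edges near all points of `f`.  All the slabs are
  parallel, since the four quadrants of two transversal slabs would correspond to four sides of
  two edges.  So they form a sequence of edges `e_j` on a line of `T`.  By the pigeonhole principle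
  there is `g` in `G` which maps `e_i` and `e_{i+m}` to `e_j` and `e_{j+m}`, `i < j`; it is hyperbolic
  on `T`.  As `S_{e_i}`, ..., `S_{e_{j+m}}` are near a common hyperplane, which is unbounded, the
  pigeonhole principle also shows that the common stabiliser of these edges is infinite.
  So it contains an element `a` of infinite order, `a` and `g⁻¹ a g` are in the virtually abelian
  stabiliser of `e_i` and `e_{i+m}`, and if there is no `ℤ²` then they have a common power.
  The translation lengths show that `g²` commutes with a power of `a`, and these two elements
  generate `ℤ²`.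
-/

set_option autoImplicit false

namespace Pool.Agent.Results.MP_140312_al.VertexFlatsH57

open Set Metric Function

/-- The inequality of Bruhat and Tits: a complete metric space is CAT(0) if and only if any two
points `p`, `q` have a midpoint `m` such that
`d(x, m)² ≤ (d(x, p)² + d(x, q)²) / 2 - d(p, q)² / 4` for all `x`. -/
def BruhatTits (X : Type) [MetricSpace X] : Prop := ∀ p q : X, ∃ m : X, ∀ x : X,
  dist x m ^ 2 ≤ (dist x p ^ 2 + dist x q ^ 2) / 2 - dist p q ^ 2 / 4

/-- `B` is a nonempty closed convex subset of `X`, preserved by the subgroup `K`, which acts
cocompactly on `B`. -/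
def ConvexCocompact {X : Type} [MetricSpace X] {G : Type} [Group G] [MulAction G X]
    (K : Subgroup G) (B : Set X) : Prop :=
  B.Nonempty ∧ IsClosed B ∧
    (∀ p ∈ B, ∀ q ∈ B, ∀ m, dist p m + dist m q = dist p q → m ∈ B) ∧
    (∀ g ∈ K, ∀ x ∈ B, g • x ∈ B) ∧
    ∃ C : Set X, IsCompact C ∧ ∀ x ∈ B, ∃ g ∈ K, g • x ∈ C

/-- The subgroup of the elements which fix `u` and `v`, that is, the pointwise stabiliser of the
segment `[u, v]` of the tree. -/
def PairStabilizer (G : Type) [Group G] {V : Type} [MulAction G V] (u v : V) : Subgroup G :=
  MulAction.stabilizer G u ⊓ MulAction.stabilizer G v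

/-- `A` has a finitely generated abelian subgroup of finite index. -/
def VirtuallyAbelian {G : Type} [Group G] (A : Subgroup G) : Prop :=
  ∃ A' : Subgroup G, A' ≤ A ∧ A'.relIndex A ≠ 0 ∧ A'.FG ∧ ∀ a ∈ A', ∀ b ∈ A', a * b = b * a

/-- The limit flats of `F`: the closure, for pointwise convergence, of the set of the flats
`z ↦ g • F (z + p)`, where `g` is in `G` and `p` is in `ℝ^k`. -/
def LimitFlats (G : Type) [Group G] {X : Type} [MetricSpace X] [MulAction G X] {k : ℕ}
    (F : EuclideanSpace ℝ (Fin k) → X) : Set (EuclideanSpace ℝ (Fin k) → X) :=
  closure {f | ∃ (g : G) (p : EuclideanSpace ℝ (Fin k)), f = fun z => g • F (z + p)}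

/-- Let `G` act geometrically (by isometries, properly discontinuously, cocompactly) on a proper
CAT(0) space `X`, let `G` act on a tree `T` by graph automorphisms, and suppose that for some `m`
* the stabilisers of the pairs of vertices at distance at least `m` are virtually abelian, and
* `m ≤ 1`, or the stabilisers of the pairs of adjacent vertices are convex cocompact in `X`.
Let `F` be a flat of dimension `k ≥ 2` in `X`.  Then `G` has a subgroup isomorphic to `ℤ²`, or there
are a limit flat `f` of `F` and a vertex `v` such that `f` is in a bounded neighbourhood of an orbit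
of the stabiliser of `v`.  If the stabiliser of `v` acts cocompactly on a closed convex set `B` then
`B` contains a flat `p` which is parallel to `f`. -/
theorem result {X : Type} [MetricSpace X] [ProperSpace X] (hX : BruhatTits X)
    {G : Type} [Group G] [MulAction G X] [IsIsometricSMul G X] [ProperlyDiscontinuousSMul G X]
    (hcc : ∃ C : Set X, IsCompact C ∧ ∀ x : X, ∃ g : G, g • x ∈ C)
    {V : Type} {T : SimpleGraph V} (hT : T.IsTree) [MulAction G V]
    (hact : ∀ (g : G) (u v : V), T.Adj u v → T.Adj (g • u) (g • v))
    (m : ℕ) (hm : ∀ u v : V, m ≤ T.dist u v → VirtuallyAbelian (PairStabilizer G u v))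
    (he : m ≤ 1 ∨ ∀ u v : V, T.Adj u v → ∃ B : Set X, ConvexCocompact (PairStabilizer G u v) B)
    {k : ℕ} (hk : 2 ≤ k) (F : EuclideanSpace ℝ (Fin k) → X) (hF : Isometry F) (o : X) :
    (∃ φ : Multiplicative (ℤ × ℤ) →* G, Injective φ) ∨
    ∃ f ∈ LimitFlats G F, ∃ (v : V) (R : ℝ), Isometry f ∧
      (∀ z, ∃ g ∈ MulAction.stabilizer G v, dist (f z) (g • o) ≤ R) ∧
      ∀ B : Set X, ConvexCocompact (MulAction.stabilizer G v) B →
        ∃ p : EuclideanSpace ℝ (Fin k) → X, Isometry p ∧ (∀ z, p z ∈ B) ∧
          ∀ z w, dist (f z) (p z) = dist (f w) (p w) := by
  have hG : Pool.Agent.Y34.HB.Geo X G := ⟨inferInstance, inferInstance, inferInstance, hcc, hX⟩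
  rcases Pool.Agent.V7H57.FL.vertex_flats hT hact hG o m
    (fun u v huv => hm u v (by
      have : (m : ℤ) ≤ (T.dist u v : ℤ) := huv
      exact_mod_cast this))
    (he.imp_right fun h a b hab => by
      obtain ⟨B, b1, b2, b3, b4, b5⟩ := h a b hab
      exact ⟨B, b1, b2, b3, b4, b5⟩) hk hF with h | ⟨f, h1, v, R, h2, h3, h4⟩
  · exact Or.inl h
  · refine Or.inr ⟨f, h1, v, R, h2, h3, fun B hB => ?_⟩
    obtain ⟨b1, b2, b3, b4, b5⟩ := hB
    exact h4 B ⟨b1, b2, b3, b4, b5⟩

end Pool.Agent.Results.MP_140312_al.VertexFlatsH57
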